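import Mathlib

/-! Algebraic part of the resolvent barrier in a unital C*-algebra. -/

namespace Pool.Agent.Lib.MP_08bba9_an.B

variable {M : Type*} [CStarAlgebra M] [PartialOrder M] [StarOrderedRing M]

/-- `T` is positive with two-sided inverse `A`. -/
structure Inv (T A : M) : Prop where
  pos : 0 ≤ T
  mul : T * A = 1
  mul' : A * T = 1

namespace Inv

variable {T A : M}

theorem saT (h : Inv T A) : star T = T := (IsSelfAdjoint.of_nonneg h.pos).star_eq

theorem saA (h : Inv T A) : star A = A := by
  have h1 : star A * T = 1 := by rw [← h.saT, ← star_mul, h.mul, star_one]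
  calc star A = star A * (T * A) := by rw [h.mul, mul_one]
    _ = A := by rw [← mul_assoc, h1, one_mul]

theorem posA (h : Inv T A) : 0 ≤ A := by
  have := star_left_conjugate_nonneg h.pos A
  rwa [h.saA, h.mul', one_mul] at this

theorem symm (h : Inv T A) : Inv A T := ⟨h.posA, h.mul', h.mul⟩

omit [StarOrderedRing M] in
theorem strict (h : Inv T A) : IsStrictlyPositive T :=
  ⟨h.pos, ⟨⟨T, A, h.mul, h.mul'⟩, rfl⟩⟩

/-- Larger elements are invertible too. -/
theorem of_le (h : Inv T A) {T' : M} (hle : T ≤ T') : ∃ A', Inv T' A' := by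
  obtain ⟨u, hu⟩ := CStarAlgebra.isUnit_of_le T hle h.strict
  refine ⟨(u⁻¹ : Mˣ), h.pos.trans hle, ?_, ?_⟩
  · rw [← hu]; exact u.mul_inv
  · rw [← hu]; exact u.inv_mul

/-- The inverse is antitone. -/
theorem anti (h : Inv T A) {T' A' : M} (h' : Inv T' A') (hle : T ≤ T') : A' ≤ A := by
  have h1 := star_left_conjugate_nonneg h.pos (A' - A)
  have h2 := star_left_conjugate_le_conjugate hle A'
  rw [h'.saA, h'.mul', one_mul] at h2
  rw [star_sub, h'.saA, h.saA] at h1
  have h3 : (A' - A) * T * (A' - A) = A' * T * A' - A' - A' + A := by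
    have e1 : A' * T * A = A' := by rw [mul_assoc, h.mul, mul_one]
    simp only [sub_mul, mul_sub, h.mul', one_mul, e1]
    abel
  rw [h3] at h1
  have h4 : A' * T * A' - A' - A' + A ≤ A' - A' - A' + A := by gcongr
  have h5 : A' - A' - A' + A = A - A' := by abel
  rw [h5] at h4
  exact sub_nonneg.1 (h1.trans h4)

theorem smul (h : Inv T A) {t : ℝ} (ht : 0 < t) : Inv (t • T) (t⁻¹ • A) := by
  refine ⟨smul_nonneg ht.le h.pos, ?_, ?_⟩
  · rw [smul_mul_smul_comm, h.mul, mul_inv_cancel₀ ht.ne', one_smul]
  · rw [smul_mul_smul_comm, h.mul', inv_mul_cancel₀ ht.ne', one_smul]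

theorem conj (h : Inv T A) {u : M} (h1 : star u * u = 1) (h2 : u * star u = 1) :
    Inv (star u * T * u) (star u * A * u) := by
  refine ⟨star_left_conjugate_nonneg h.pos u, ?_, ?_⟩
  · calc star u * T * u * (star u * A * u) = star u * T * (u * star u) * A * u := by
          simp only [mul_assoc]
      _ = 1 := by rw [h2, mul_one, mul_assoc (star u), h.mul, mul_one, h1]
  · calc star u * A * u * (star u * T * u) = star u * A * (u * star u) * T * u := by
          simp only [mul_assoc]
      _ = 1 := by rw [h2, mul_one, mul_assoc (star u), h.mul', mul_one, h1]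

/-- Step (a): `y A y* ≤ g` gives `y* y ≤ g T`. -/
theorem star_mul_le (h : Inv T A) {y : M} {g : ℝ} (hg : 0 < g)
    (hy : y * A * star y ≤ g • (1 : M)) : star y * y ≤ g • T := by
  have h1 := star_left_conjugate_nonneg h.posA (g • T - star y * y)
  have hs : star (g • T - star y * y) = g • T - star y * y := by
    simp [star_smul, h.saT]
  rw [hs] at h1
  have h2 := star_left_conjugate_le_conjugate hy y
  have h3 : (g • T - star y * y) * A * (g • T - star y * y) =
      g • (g • T) - g • (star y * y) - g • (star y * y) + star y * (y * A * star y) * y := by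
    have e1 : star y * y * A * T = star y * y := by rw [mul_assoc, h.mul', mul_one]
    simp only [sub_mul, mul_sub, smul_mul_assoc, mul_smul_comm, h.mul, one_mul, e1, smul_sub]
    simp only [mul_assoc]
    abel
  have h4 : star y * (g • (1 : M)) * y = g • (star y * y) := by
    simp
  rw [h4] at h2
  rw [h3] at h1
  have h5 : g • (g • T) - g • (star y * y) - g • (star y * y) + star y * (y * A * star y) * y ≤
      g • (g • T) - g • (star y * y) - g • (star y * y) + g • (star y * y) := by gcongr
  have h6 : g • (g • T) - g • (star y * y) - g • (star y * y) + g • (star y * y) =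
      g • (g • T) - g • (star y * y) := by abel
  rw [h6] at h5
  exact le_of_smul_le_smul_left (sub_nonneg.1 (h1.trans h5)) hg

/-- Step (b). -/
theorem quad_le (h : Inv T A) (u : M) :
    (u + star u) * A * (u + star u) ≤ (2 : ℝ) • (u * A * star u + star u * A * u) := by
  have h1 := star_right_conjugate_nonneg h.posA (u - star u)
  rw [star_sub, star_star] at h1
  have h2 : (2 : ℝ) • (u * A * star u + star u * A * u) - (u + star u) * A * (u + star u) =
      (u - star u) * A * (star u - u) := by
    rw [two_smul]
    simp only [sub_mul, mul_sub, add_mul, mul_add]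
    abel
  rw [← sub_nonneg, h2]
  exact h1

/-- Step (c). -/
theorem le_of_quad (h : Inv T A) {D : M} (hD : star D = D) {m : ℝ} (hm : 0 < m)
    (hq : D * A * D ≤ (m * m) • T) : D ≤ m • T := by
  have h1 := star_left_conjugate_nonneg h.posA (D - m • T)
  have hs : star (D - m • T) = D - m • T := by simp [star_smul, h.saT, hD]
  rw [hs] at h1
  have h3 : (D - m • T) * A * (D - m • T) = D * A * D - m • D - m • D + (m * m) • T := by
    have e1 : D * A * T = D := by rw [mul_assoc, h.mul', mul_one]
    simp only [sub_mul, mul_sub, smul_mul_assoc, mul_smul_comm, h.mul, one_mul, e1, mul_smul,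
      smul_sub]
    abel
  rw [h3] at h1
  have h5 : D * A * D - m • D - m • D + (m * m) • T ≤
      (m * m) • T - m • D - m • D + (m * m) • T := by gcongr
  have h6 : (m * m) • T - m • D - m • D + (m * m) • T = (2 * m) • (m • T - D) := by
    simp only [two_mul, add_smul, smul_sub, mul_smul]
    abel
  rw [h6] at h5
  have h7 : (2 * m) • (0 : M) ≤ (2 * m) • (m • T - D) := by
    rw [smul_zero]; exact h1.trans h5
  exact sub_nonneg.1 (le_of_smul_le_smul_left h7 (by positivity))

end Inv

/-- The one-step estimate of the barrier. -/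
theorem alg {T A w q c : M} {g : ℝ} (h : Inv T A) (hg : 0 < g) (hg4 : 4 * g ≤ 1)
    (hw : star w = w) (hwq : w * w = q) (hq : IsStarProjection q) (hqw : q * w = w)
    (h1 : q * A * q ≤ g • q) (h2 : q * (c * A * star c) * q ≤ g • q) :
    ∃ A', Inv (T - (w * c + star c * w)) A' ∧
      A' ≤ A + A * (w * c + star c * w) * A +
        (4 * g) • (A * q * A + A * (star c * q * c) * A) := by
  set D := w * c + star c * w with hD
  have hDs : star D = D := by simp [hD, hw, add_comm]
  have hwq' : w * q = w := by
    have := congrArg star hqw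
    rwa [star_mul, hw, hq.isSelfAdjoint.star_eq] at this
  have hqq : q * q = q := hq.isIdempotentElem
  have hsq : star q = q := hq.isSelfAdjoint.star_eq
  have hgq : g • q ≤ g • (1 : M) := smul_le_smul_of_nonneg_left hq.le_one hg.le
  have ha1 : q ≤ g • T := by
    have := h.star_mul_le (y := q) hg (by rw [hsq]; exact h1.trans hgq)
    rwa [hsq, hqq] at this
  have ha2 : star c * q * c ≤ g • T := by
    have := h.star_mul_le (y := q * c) hg (by
      rw [star_mul, hsq]
      have e : q * c * A * (star c * q) = q * (c * A * star c) * q := by simp only [mul_assoc]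
      rw [e]; exact h2.trans hgq)
    rw [star_mul, hsq] at this
    have e : star c * q * (q * c) = star c * q * c := by
      rw [mul_assoc, ← mul_assoc q q, hqq, mul_assoc]
    rwa [e] at this
  have hb1 : w * c * A * star (w * c) ≤ g • q := by
    have := star_left_conjugate_le_conjugate h2 w
    rw [hw] at this
    have e1 : w * (q * (c * A * star c) * q) * w = w * c * A * star (w * c) := by
      rw [star_mul, hw]
      calc w * (q * (c * A * star c) * q) * w = (w * q) * (c * A * star c) * (q * w) := by
            simp only [mul_assoc]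
        _ = _ := by rw [hwq', hqw]; simp only [mul_assoc]
    have e2 : w * (g • q) * w = g • q := by
      rw [mul_smul_comm, smul_mul_assoc, hwq', hwq]
    rwa [e1, e2] at this
  have hb2 : star (w * c) * A * (w * c) ≤ g • (star c * q * c) := by
    have := star_left_conjugate_le_conjugate h1 (w * c)
    have e1 : star (w * c) * (q * A * q) * (w * c) = star (w * c) * A * (w * c) := by
      rw [star_mul, hw]
      calc star c * w * (q * A * q) * (w * c) = star c * (w * q) * A * (q * w) * c := by
            simp only [mul_assoc]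
        _ = _ := by rw [hwq', hqw]; simp only [mul_assoc]
    have e2 : star (w * c) * (g • q) * (w * c) = g • (star c * q * c) := by
      rw [star_mul, hw, mul_smul_comm, smul_mul_assoc]
      congr 1
      calc star c * w * q * (w * c) = star c * ((w * q) * w) * c := by simp only [mul_assoc]
        _ = _ := by rw [hwq', hwq]
    rwa [e1, e2] at this
  have hb : D * A * D ≤ (2 * g) • (q + star c * q * c) := by
    have := h.quad_le (w * c)
    have e : w * c + star (w * c) = D := by rw [star_mul, hw]
    rw [e] at this
    refine this.trans ?_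
    rw [mul_smul, smul_add g]
    exact smul_le_smul_of_nonneg_left (add_le_add hb1 hb2) (by norm_num)
  have hb' : D * A * D ≤ (2 * g * (2 * g)) • T := by
    refine hb.trans ?_
    rw [mul_smul (2 * g) (2 * g) T]
    refine smul_le_smul_of_nonneg_left ?_ (by positivity)
    rw [two_mul, add_smul]
    exact add_le_add ha1 ha2
  have hc : D ≤ (2 * g) • T := h.le_of_quad hDs (by positivity) hb'
  have hhalf : (1 / 2 : ℝ) • T ≤ T - D := by
    have e1 : (2 * g) • T ≤ (1 / 2 : ℝ) • T :=
      smul_le_smul_of_nonneg_right (by linarith) h.pos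
    have e2 : T - (1 / 2 : ℝ) • T = (1 / 2 : ℝ) • T := by
      nth_rewrite 1 [← one_smul ℝ T]
      rw [← sub_smul]; norm_num
    calc (1 / 2 : ℝ) • T = T - (1 / 2 : ℝ) • T := e2.symm
      _ ≤ T - D := sub_le_sub_left (hc.trans e1) T
  have hI := h.smul (t := 1 / 2) (by norm_num)
  obtain ⟨A', hA'⟩ := hI.of_le hhalf
  have hA2 : A' ≤ (2 : ℝ) • A := by
    have := hI.anti hA' hhalf
    norm_num at this
    exact this
  refine ⟨A', hA', ?_⟩
  have r1 : A' = A + A * D * A' := by
    calc A' = A * T * A' := by rw [h.mul', one_mul]
      _ = A * ((T - D) * A') + A * D * A' := by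
          simp only [sub_mul, mul_sub, mul_assoc]; abel
      _ = _ := by rw [hA'.mul, mul_one]
  have r2 : A' = A + A' * D * A := by
    calc A' = A' * (T * A) := by rw [h.mul, mul_one]
      _ = (A' * (T - D)) * A + A' * D * A := by
          simp only [sub_mul, mul_sub, mul_assoc]; abel
      _ = _ := by rw [hA'.mul', one_mul]
  have r3 : A' = A + A * D * A + star (D * A) * A' * (D * A) := by
    rw [star_mul, h.saA, hDs]
    calc A' = A + A * D * A' := r1
      _ = A + A * D * (A + A' * D * A) := by rw [← r2]
      _ = _ := by simp only [mul_add, mul_assoc, add_assoc]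
  have r4 : star (D * A) * A' * (D * A) ≤ (4 * g) • (A * q * A + A * (star c * q * c) * A) := by
    refine (star_left_conjugate_le_conjugate hA2 (D * A)).trans ?_
    have e1 : star (D * A) * ((2 : ℝ) • A) * (D * A) = (2 : ℝ) • (star A * (D * A * D) * A) := by
      rw [star_mul, hDs, mul_smul_comm, smul_mul_assoc]
      simp only [mul_assoc]
    have e2 := star_left_conjugate_le_conjugate hb A
    have e3 : star A * ((2 * g) • (q + star c * q * c)) * A =
        (2 * g) • (A * q * A + A * (star c * q * c) * A) := by
      rw [h.saA, mul_smul_comm, smul_mul_assoc, mul_add, add_mul]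
    rw [e3] at e2
    rw [e1, show 4 * g = 2 * (2 * g) by ring, mul_smul (2 : ℝ) (2 * g)]
    exact smul_le_smul_of_nonneg_left e2 (by norm_num)
  calc A' = A + A * D * A + star (D * A) * A' * (D * A) := r3
    _ ≤ _ := by gcongr

end Pool.Agent.Lib.MP_08bba9_an.B
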