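import Pool.Agent.Lib.MP_08bba9_an.B.Tools

/-! The small step and the full step of the resolvent barrier. -/

open Finset

namespace Pool.Agent.Lib.MP_08bba9_an.B

open Pool.Agent.Lib.MP_08bba9_an.K

variable {M : Type*} [CStarAlgebra M] [PartialOrder M] [StarOrderedRing M]
  {U : Set M} {τ : M →L[ℂ] ℂ}

theorem inv_scalar {t : ℝ} (ht : 0 < t) : Inv (t • (1 : M)) (t⁻¹ • (1 : M)) :=
  (⟨zero_le_one, one_mul _, one_mul _⟩ : Inv (1 : M) 1).smul ht

theorem le_shift (T : M) {δ : ℝ} (hδ : 0 ≤ δ) : T ≤ T + δ • (1 : M) :=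
  le_add_of_nonneg_right (smul_nonneg hδ zero_le_one)

/-- the trace of the squared inverse is bounded below -/
theorem sq_lower (h : Hyp U τ) {T A : M} (hI : Inv T A) {L : ℝ} (hL : 0 < L)
    (hT : T ≤ L • (1 : M)) : L⁻¹ * L⁻¹ ≤ (τ (A * A)).re := by
  have h1 := t_mono h (hI.anti (inv_scalar hL) hT)
  rw [re_smul, h.t_one, Complex.one_re, mul_one] at h1
  have h2 := h.pos (A - L⁻¹ • (1 : M))
  have e : star (A - L⁻¹ • (1 : M)) * (A - L⁻¹ • (1 : M)) =
      A * A - L⁻¹ • A - L⁻¹ • A + (L⁻¹ * L⁻¹) • (1 : M) := by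
    rw [star_sub, hI.saA, star_smul, star_one, star_trivial]
    simp only [sub_mul, mul_sub, smul_mul_assoc, mul_smul_comm, one_mul, mul_one, mul_smul,
      smul_sub]
    abel
  rw [e, map_add, map_sub, map_sub, Complex.add_re, Complex.sub_re, Complex.sub_re, re_smul,
    re_smul, h.t_one, Complex.one_re] at h2
  have := inv_pos.2 hL
  nlinarith

/-- the gain of a shift -/
theorem shift_gain (h : Hyp U τ) {T A A' : M} {δ : ℝ} (hδ : 0 ≤ δ) (hI : Inv T A)
    (hI' : Inv (T + δ • (1 : M)) A') : (τ A').re + δ * (τ (A' * A')).re ≤ (τ A).re := by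
  have h1 : A' ≤ A := hI.anti hI' (le_shift T hδ)
  have e : A = A' + δ • (A * A') := by
    calc A = A * ((T + δ • (1 : M)) * A') := by rw [hI'.mul, mul_one]
      _ = _ := by
        rw [add_mul, mul_add, ← mul_assoc, hI.mul', one_mul, smul_mul_assoc, one_mul,
          mul_smul_comm]
  have h2 := t_mul_nonneg h (sub_nonneg.2 h1) hI'.posA
  rw [sub_mul, map_sub, Complex.sub_re] at h2
  have h3 := congrArg (fun x => (τ x).re) e
  simp only [map_add, Complex.add_re, re_smul] at h3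
  nlinarith

omit [PartialOrder M] [StarOrderedRing M] in
theorem norm3 {x y z : M} {a : ℝ} (hx : ‖x‖ ≤ 1) (hy : ‖y‖ ≤ a) (hz : ‖z‖ ≤ 1) :
    ‖x * y * z‖ ≤ a := by
  have ha : 0 ≤ a := (norm_nonneg _).trans hy
  calc _ ≤ ‖x‖ * ‖y‖ * ‖z‖ :=
        (norm_mul_le _ _).trans (mul_le_mul_of_nonneg_right (norm_mul_le _ _) (norm_nonneg _))
    _ ≤ 1 * a * 1 := by gcongr
    _ = a := by ring

/-- the small step -/
theorem ms (h : Hyp U τ) (rk : RK M) (hD : Tiny τ) (h3 : LQ2 τ) (Ω : Type) [Fintype Ω]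
    {L φ η : ℝ} (hL : 0 < L) (hφ : 0 < φ) (hη : 0 < η) (hη1 : η ≤ 1) (hφη : 20 * φ ≤ η) :
    ∃ θ : ℝ, 0 < θ ∧ θ ≤ η ∧ ∀ P, IsStarProjection P → η ≤ (τ P).re → ∀ T A c : Ω → M,
      (∀ o, Inv (T o) (A o)) → (∀ o, T o ≤ L • (1 : M)) → (∀ o, (τ (A o)).re ≤ φ) →
      (∀ o, ‖c o‖ ≤ 1) → ∃ w q : M, star w = w ∧ w * w = q ∧ IsStarProjection q ∧ q * w = w ∧
        P * q = q ∧ θ ≤ (τ q).re ∧ ∀ o, ∃ A', Inv (T o + (400 * φ / η ^ 2 * θ) • (1 : M) -
          (w * c o + star (c o) * w)) A' ∧ (τ A').re ≤ φ := by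
  classical
  obtain ⟨m, hm⟩ : ∃ m : ℝ, m = (Fintype.card Ω : ℝ) := ⟨_, rfl⟩
  have m0 : 0 ≤ m := hm ▸ Nat.cast_nonneg _
  obtain ⟨Λ, hΛ⟩ : ∃ Λ : ℝ, Λ = 10 * (m + 1) * φ / η := ⟨_, rfl⟩
  have Λ0 : 0 < Λ := by rw [hΛ]; positivity
  obtain ⟨γ, hγ⟩ : ∃ γ : ℝ, γ = min φ ((L + 1)⁻¹ * (L + 1)⁻¹) := ⟨_, rfl⟩
  have γ0 : 0 < γ := by rw [hγ]; exact lt_min hφ (by positivity)
  have γ1 : γ ≤ φ := hγ ▸ min_le_left _ _
  have γ2 : γ ≤ (L + 1)⁻¹ * (L + 1)⁻¹ := hγ ▸ min_le_right _ _
  obtain ⟨θ0, θ00, HQ⟩ := lq h rk h3 (Ω × Fin 4) (Λ := Λ + Λ * Λ) (π0 := η / 2) (by positivity) γ0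
    (by positivity)
  obtain ⟨θ, hθ⟩ : ∃ θ : ℝ, θ = min (θ0 / (8 * m + 3)) (min η (η ^ 2 / (400 * φ))) := ⟨_, rfl⟩
  have θp : 0 < θ := by rw [hθ]; exact lt_min (by positivity) (lt_min hη (by positivity))
  have θ1 : θ * (8 * m + 3) ≤ θ0 := by
    rw [← le_div_iff₀ (by positivity), hθ]; exact min_le_left _ _
  have θ2 : θ ≤ η := by rw [hθ]; exact (min_le_right _ _).trans (min_le_left _ _)
  have θ3 : θ ≤ η ^ 2 / (400 * φ) := by rw [hθ]; exact (min_le_right _ _).trans (min_le_right _ _)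
  obtain ⟨δ, hδ⟩ : ∃ δ : ℝ, δ = 400 * φ / η ^ 2 * θ := ⟨_, rfl⟩
  have δ0 : 0 ≤ δ := by rw [hδ]; positivity
  have δ1 : δ ≤ 1 := by
    rw [le_div_iff₀ (by positivity)] at θ3
    rw [hδ, div_mul_eq_mul_div, div_le_one (by positivity)]
    linarith
  refine ⟨θ, θp, θ2, fun P hP hPη T A0 c hI hT hA hc => ?_⟩
  rw [← hδ]
  choose A hIA using fun o => (hI o).of_le (le_shift (T o) δ0)
  have hAφ : ∀ o, (τ (A o)).re ≤ φ := fun o =>
    (t_mono h ((hI o).anti (hIA o) (le_shift _ δ0))).trans (hA o)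
  have As : ∀ o, star (A o) = A o := fun o => (hIA o).saA
  have A2 : ∀ o, 0 ≤ A o * A o := fun o => by
    have := star_mul_self_nonneg (A o)
    rwa [As] at this
  choose f f1 f2 f3 using fun o => cutA h rk (hIA o).posA Λ0.le
  choose r r1 r2 r3 using fun o => supp4 h (c o) (f1 o)
  obtain ⟨F, hF, F1, F2⟩ := h.joinFin univ (Sum.elim f r) (by rintro (o | o) - <;> simp [f1, r1])
  have F3 : (τ F).re ≤ η / 2 := by
    rw [Fintype.sum_sum_type] at F2
    simp only [Sum.elim_inl, Sum.elim_inr] at F2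
    have b1 : ∀ o, (τ (f o)).re ≤ φ / Λ := fun o => by
      rw [le_div_iff₀ Λ0]; linarith [f3 o, hAφ o]
    have b2 : ∑ o, (τ (f o)).re ≤ m * (φ / Λ) := by
      simpa [hm] using sum_le_sum fun o (_ : o ∈ univ) => b1 o
    have b3 : ∑ o, (τ (r o)).re ≤ m * (4 * (φ / Λ)) := by
      simpa [hm] using sum_le_sum fun o (_ : o ∈ univ) =>
        (r3 o).trans (mul_le_mul_of_nonneg_left (b1 o) (by norm_num))
    have b4 : φ / Λ = η / (10 * (m + 1)) := by rw [hΛ]; field_simp
    have b5 : (m + 1) * (η / (10 * (m + 1))) = η / 10 := by field_simp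
    have b6 : 0 ≤ η / (10 * (m + 1)) := by positivity
    rw [b4] at b2 b3
    nlinarith
  obtain ⟨p, hp, Pp, pF, tp⟩ := meet h hP hF
  have ps : star p = p := hp.isSelfAdjoint.star_eq
  have pf : ∀ o, p * (1 - f o) = p := fun o => by
    have := F1 (Sum.inl o) (mem_univ _)
    simp only [Sum.elim_inl] at this
    rw [mul_sub, mul_one, ← this, ← mul_assoc, pF, zero_mul, sub_zero]
  have pc : ∀ o, p * c o * (1 - f o) = p * c o := fun o => by
    have := F1 (Sum.inr o) (mem_univ _)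
    simp only [Sum.elim_inr] at this
    rw [mul_sub, mul_one, mul_assoc p, ← r2 o, ← this, mul_assoc F, ← mul_assoc p, pF, zero_mul,
      sub_zero]
  have nA : ∀ o (y : M), ‖y‖ ≤ 1 → y * (1 - f o) = y → ‖y * A o * star y‖ ≤ Λ + Λ * Λ ∧
      ‖y * (A o * A o) * star y‖ ≤ Λ + Λ * Λ := fun o y hy e => by
    have hy' : ‖star y‖ ≤ 1 := by rwa [norm_star]
    have e' : (1 - f o) * star y = star y := by
      have := congrArg star e
      rwa [star_mul, (f1 o).one_sub.isSelfAdjoint.star_eq] at this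
    constructor
    · rw [← e, mul_assoc y, star_mul, (f1 o).one_sub.isSelfAdjoint.star_eq, e']
      exact (norm3 hy (f2 o) hy').trans (le_add_of_nonneg_right (by positivity))
    · have e3 : y * (A o * A o) * star y =
          y * ((1 - f o) * A o * star ((1 - f o) * A o)) * star y := by
        rw [star_mul, As, (f1 o).one_sub.isSelfAdjoint.star_eq]
        calc y * (A o * A o) * star y = (y * (1 - f o)) * (A o * A o) * ((1 - f o) * star y) := by
              rw [e, e']
          _ = _ := by simp only [mul_assoc]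
      rw [e3]
      refine (norm3 hy (a := Λ * Λ) ?_ hy').trans (le_add_of_nonneg_left Λ0.le)
      rw [CStarRing.norm_self_mul_star]
      exact mul_le_mul (f2 o) (f2 o) (norm_nonneg _) Λ0.le
  have npc : ∀ o, ‖p * c o‖ ≤ 1 := fun o =>
    (norm_mul_le _ _).trans (mul_le_one₀ hp.norm_le (norm_nonneg _) (hc o))
  obtain ⟨q1, hq1, pq1, tq1, Q⟩ := HQ p hp (by linarith)
    (fun i => ![A i.1, A i.1 * A i.1, c i.1 * A i.1 * star (c i.1),
      c i.1 * (A i.1 * A i.1) * star (c i.1)] i.2)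
    (by
      rintro ⟨o, j⟩
      fin_cases j
      · exact (hIA o).posA
      · exact A2 o
      · exact star_right_conjugate_nonneg (hIA o).posA _
      · exact star_right_conjugate_nonneg (A2 o) _)
    (by
      rintro ⟨o, j⟩
      fin_cases j
      · simpa [ps] using (nA o p hp.norm_le (pf o)).1
      · simpa [ps] using (nA o p hp.norm_le (pf o)).2
      · simpa [ps, mul_assoc] using (nA o _ (npc o) (pc o)).1
      · simpa [ps, mul_assoc] using (nA o _ (npc o) (pc o)).2)
  obtain ⟨s, hs, q1s, s1, s2⟩ := sub_size h hD hq1 θp (by nlinarith)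
  choose ra ra1 ra2 ra3 using fun o => supp4 h (A o * A o * star (c o)) hs
  choose rb rb1 rb2 rb3 using fun o => supp4 h (c o * (A o * A o)) hs
  obtain ⟨G, hG, G1, G2⟩ := h.joinFin univ (Sum.elim ra rb) (by rintro (o | o) - <;> simp [ra1, rb1])
  obtain ⟨G', hG', G3, G4, G5⟩ := h.join G s hG hs
  have G6 : (τ G).re ≤ 8 * m * θ := by
    rw [Fintype.sum_sum_type] at G2
    simp only [Sum.elim_inl, Sum.elim_inr] at G2
    have b2 : ∑ o, (τ (ra o)).re ≤ m * (4 * θ) := by
      simpa [hm] using sum_le_sum fun o (_ : o ∈ univ) =>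
        (ra3 o).trans (mul_le_mul_of_nonneg_left s2 (by norm_num))
    have b3 : ∑ o, (τ (rb o)).re ≤ m * (4 * θ) := by
      simpa [hm] using sum_le_sum fun o (_ : o ∈ univ) =>
        (rb3 o).trans (mul_le_mul_of_nonneg_left s2 (by norm_num))
    linarith
  obtain ⟨r0, hr0, q1r, rG, tr0⟩ := meet h hq1 hG'
  obtain ⟨z, hz, v, hv, rv⟩ := h.tc hs hr0 (by nlinarith)
  have r0s : star r0 = r0 := hr0.isSelfAdjoint.star_eq
  have ss : star s = s := hs.isSelfAdjoint.star_eq
  have hs' := h.proj_mul hz hs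
  have r0G : r0 * G = 0 := by rw [← G3, ← mul_assoc, rG, zero_mul]
  have r0s0 : r0 * s = 0 := by rw [← G4, ← mul_assoc, rG, zero_mul]
  have sr0 : s * r0 = 0 := flip r0s ss (star_zero _) r0s0
  have vs' : v * (z * s) = v := pi_mul hs' hv
  have vs : v * s = v := by
    rw [← vs', mul_assoc, mul_assoc, hs.isIdempotentElem.eq]
  have sv : s * v = 0 := by rw [← rv, ← mul_assoc, sr0, zero_mul]
  have vv : v * v = 0 := by
    calc v * v = v * s * v := by rw [vs]
      _ = 0 := by rw [mul_assoc, sv, mul_zero]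
  have vv' : star v * star v = 0 := by rw [← star_mul, vv, star_zero]
  have sv' : s * star v = star v := by
    have := congrArg star vs
    rwa [star_mul, ss] at this
  have vr' : star v * r0 = star v := by
    have := congrArg star rv
    rwa [star_mul, r0s] at this
  have zsv' : z * s * star v = star v := by
    have := congrArg star vs'
    rwa [star_mul, hs'.isSelfAdjoint.star_eq] at this
  have zsv : z * s * v = 0 := by rw [mul_assoc, sv, mul_zero]
  have hq : IsStarProjection (z * s + v * star v) :=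
    hs'.add (pi_final hs' hv) (by rw [← mul_assoc, zsv, zero_mul])
  have q1q : q1 * (z * s + v * star v) = z * s + v * star v := by
    rw [mul_add, ← mul_assoc, ← h.cen z hz, mul_assoc, q1s, ← rv, mul_assoc r0, ← mul_assoc q1,
      q1r]
  have tq : (τ (z * s + v * star v)).re = 2 * (τ s).re := by
    rw [map_add, Complex.add_re, h.tr v, hv, h.re_mul hz hs]; ring
  have ww : (v + star v) * (v + star v) = z * s + v * star v := by
    simp only [mul_add, add_mul, vv, vv', hv]; abel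
  have qw : (z * s + v * star v) * (v + star v) = v + star v := by
    rw [add_mul, mul_add, mul_add, zsv, zsv', mul_assoc v, mul_assoc v, hv, vs', vv', mul_zero]
    abel
  have wst : star (v + star v) = v + star v := by rw [star_add, star_star, add_comm]
  obtain ⟨q, hqd⟩ : ∃ q, q = z * s + v * star v := ⟨_, rfl⟩
  rw [← hqd] at hq q1q tq ww qw
  have qs : star q = q := hq.isSelfAdjoint.star_eq
  have qq : q * q = q := hq.isIdempotentElem.eq
  have qq1 : q * q1 = q := flip hq1.isSelfAdjoint.star_eq qs qs q1q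
  have Q' : ∀ (b : M) (β : ℝ), q1 * b * q1 ≤ β • q1 → q * b * q ≤ β • q := fun b β hb => by
    have := hq.isSelfAdjoint.conjugate_le_conjugate hb
    rw [mul_smul_comm, smul_mul_assoc, qq1, qq] at this
    have e : q * (q1 * b * q1) * q = q * b * q := by
      calc _ = (q * q1) * b * (q1 * q) := by simp only [mul_assoc]
        _ = _ := by rw [qq1, q1q]
    rwa [e] at this
  refine ⟨v + star v, q, wst, ww, hq, qw, ?_, by linarith, fun o => ?_⟩
  · rw [← q1q, ← pq1, mul_assoc p, ← mul_assoc P, Pp]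
  have g1 : ∀ x : ℝ, x ≤ φ → x / (η / 2) + γ ≤ 5 * φ / η := fun x hx => by
    have e1 : x / (η / 2) ≤ 2 * φ / η := by
      rw [div_div_eq_mul_div]
      exact div_le_div_of_nonneg_right (by linarith) hη.le
    have e2 : φ ≤ φ / η := by rw [le_div_iff₀ hη]; nlinarith
    have e3 : 5 * φ / η = 2 * φ / η + φ / η + 2 * (φ / η) := by ring
    have e4 : 0 ≤ φ / η := by positivity
    linarith
  obtain ⟨A', hA', le'⟩ := alg (hIA o) (g := 5 * φ / η) (w := v + star v) (q := q) (c := c o)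
    (by positivity) (by rw [← mul_div_assoc, div_le_one hη]; linarith) wst ww hq qw
    ((Q' _ _ (Q (o, 0))).trans (smul_le_smul_of_nonneg_right (g1 _ (hAφ o)) hq.nonneg))
    ((Q' _ _ (Q (o, 2))).trans (smul_le_smul_of_nonneg_right
      (g1 _ ((t_conj_le h (hIA o).posA (hc o)).trans (hAφ o))) hq.nonneg))
  refine ⟨A', hA', ?_⟩
  have z1 : τ (v * c o * (A o * A o)) = 0 := by
    have k1 : r0 * (A o * A o * star (c o) * s) = 0 := by
      have := G1 (Sum.inl o) (mem_univ _)
      simp only [Sum.elim_inl] at this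
      rw [← ra2 o, ← this, mul_assoc G, ← mul_assoc r0, r0G, zero_mul]
    have k2 := congrArg star k1
    simp only [star_mul, star_star, ss, r0s, As, star_zero] at k2
    calc τ (v * c o * (A o * A o)) = τ (r0 * v * s * c o * (A o * A o)) := by rw [rv, vs]
      _ = τ (v * (s * (c o * (A o * A o)) * r0)) := by
          rw [mul_assoc r0, mul_assoc r0, mul_assoc r0, h.tr r0]; simp only [mul_assoc]
      _ = 0 := by rw [k2, mul_zero, map_zero]
  have z2 : τ (star v * c o * (A o * A o)) = 0 := by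
    have k1 : r0 * (c o * (A o * A o) * s) = 0 := by
      have := G1 (Sum.inr o) (mem_univ _)
      simp only [Sum.elim_inr] at this
      rw [← rb2 o, ← this, mul_assoc G, ← mul_assoc r0, r0G, zero_mul]
    calc τ (star v * c o * (A o * A o)) = τ (s * star v * r0 * c o * (A o * A o)) := by
          rw [sv', vr']
      _ = τ (star v * (r0 * (c o * (A o * A o) * s))) := by
          rw [mul_assoc s, mul_assoc s, mul_assoc s, h.tr s]; simp only [mul_assoc]
      _ = 0 := by rw [k1, mul_zero, map_zero]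
  have z3 : τ ((v + star v) * c o * (A o * A o)) = 0 := by
    rw [add_mul, add_mul, map_add, z1, z2, add_zero]
  have z4 : τ (star (c o) * (v + star v) * (A o * A o)) = 0 := by
    have := h.st ((v + star v) * c o * (A o * A o))
    rw [z3, star_zero, star_mul, star_mul, star_mul, As, wst, h.tr] at this
    exact this
  have z5 : τ (A o * ((v + star v) * c o + star (c o) * (v + star v)) * A o) = 0 := by
    rw [mul_assoc, h.tr, mul_assoc, add_mul, map_add, z3, z4, add_zero]
  have lo := sq_lower h (hIA o) (L := L + 1) (by positivity) (by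
    rw [add_smul]
    exact add_le_add (hT o) (smul_le_smul_of_nonneg_right δ1 zero_le_one))
  obtain ⟨a2, ha2⟩ : ∃ a2, a2 = (τ (A o * A o)).re := ⟨_, rfl⟩
  have a20 : 0 ≤ a2 := ha2 ▸ t_nonneg h (A2 o)
  have g2 : ∀ (b : M) (x : ℝ), x ≤ a2 → q * b * q ≤ (x / (η / 2) + γ) • q →
      (τ (q * b * q)).re ≤ 3 * a2 / η * (2 * θ) := fun b x hx hb => by
    have k1 := t_mono h hb
    rw [re_smul] at k1
    have e1 : x / (η / 2) ≤ 2 * a2 / η := by
      rw [div_div_eq_mul_div]
      exact div_le_div_of_nonneg_right (by linarith) hη.le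
    have e2 : a2 ≤ a2 / η := by rw [le_div_iff₀ hη]; nlinarith
    have e3 : 3 * a2 / η = 2 * a2 / η + a2 / η := by ring
    refine k1.trans (mul_le_mul (by linarith) (by linarith) (h.proj_nonneg hq) (by positivity))
  have y1 := g2 _ _ ha2.ge (Q' _ _ (Q (o, 1)))
  have y2 := g2 _ _ ((t_conj_le h (A2 o) (hc o)).trans ha2.ge) (Q' _ _ (Q (o, 3)))
  have x1 : τ (A o * q * A o) = τ (q * (A o * A o) * q) := by
    rw [h.tr (q * _) q, ← mul_assoc q, qq, mul_assoc, h.tr, mul_assoc]
  have x2 : τ (A o * (star (c o) * q * c o) * A o) =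
      τ (q * (c o * (A o * A o) * star (c o)) * q) := by
    rw [h.tr (q * _) q, ← mul_assoc q, qq]
    calc τ (A o * (star (c o) * q * c o) * A o) = τ ((A o * star (c o)) * (q * c o * A o)) := by
          simp only [mul_assoc]
      _ = _ := by rw [h.tr]; simp only [mul_assoc]
  have fin := t_mono h le'
  rw [map_add, map_add, z5, add_zero, Complex.add_re, re_smul, map_add, Complex.add_re, x1,
    x2] at fin
  have gain := shift_gain h δ0 (hI o) (hIA o)
  rw [← ha2] at gain
  have e9 : 4 * (5 * φ / η) * (3 * a2 / η * (2 * θ) + 3 * a2 / η * (2 * θ)) = 3 / 5 * (δ * a2) := by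
    rw [hδ]; field_simp; ring
  have e10 := mul_le_mul_of_nonneg_left (add_le_add y1 y2)
    (show (0 : ℝ) ≤ 4 * (5 * φ / η) by positivity)
  have e11 : 0 ≤ δ * a2 := mul_nonneg δ0 a20
  simp only [Matrix.cons_val_one, Matrix.cons_val_zero, Matrix.cons_val] at e10
  linarith [hA o]

end Pool.Agent.Lib.MP_08bba9_an.B
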