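import Pool.Agent.Lib.MP_08bba9_an.B.Alg
import Pool.Agent.Lib.MP_08bba9_an.K.Disp
import Pool.Agent.Lib.MP_08bba9_an.K.Sp

/-! Trace and projection tools for the resolvent barrier. -/

open Finset

namespace Pool.Agent.Lib.MP_08bba9_an.B

open Pool.Agent.Lib.MP_08bba9_an.K

variable {M : Type*} [CStarAlgebra M]

/-- There are projections of arbitrarily small positive trace. -/
def Tiny (τ : M →L[ℂ] ℂ) : Prop :=
  ∀ ε : ℝ, 0 < ε → ∃ s, IsStarProjection s ∧ 0 < (τ s).re ∧ (τ s).re ≤ ε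

/-- Local quantisation in the 2-norm for elements of trace zero. -/
def LQ2 (τ : M →L[ℂ] ℂ) : Prop :=
  ∀ (I : Type) [Fintype I] (γ η : ℝ), 0 < γ → 0 < η → ∃ c0 : ℝ, 0 < c0 ∧
    ∀ f, IsStarProjection f → η ≤ (τ f).re → ∀ Y : I → M, (∀ i, ‖Y i‖ ≤ 1) →
      (∀ i, τ (f * Y i) = 0) → ∃ q, IsStarProjection q ∧ f * q = q ∧ c0 ≤ (τ q).re ∧
        ∀ i, (τ (star (q * Y i * q) * (q * Y i * q))).re ≤ (τ q).re * γ ^ 2

theorem flip {p q r : M} (hp : star p = p) (hq : star q = q) (hr : star r = r) (h : p * q = r) :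
    q * p = r := by
  have := congrArg star h
  rwa [star_mul, hp, hq, hr] at this

theorem re_smul (τ : M →L[ℂ] ℂ) (t : ℝ) (x : M) : (τ (t • x)).re = t * (τ x).re := by
  rw [← Complex.coe_smul, map_smul, smul_eq_mul, Complex.re_ofReal_mul]

variable {U : Set M} {τ : M →L[ℂ] ℂ}

/-- meet of a projection with the complement of another -/
theorem meet (h : Hyp U τ) {p f : M} (hp : IsStarProjection p) (hf : IsStarProjection f) :
    ∃ p', IsStarProjection p' ∧ p * p' = p' ∧ p' * f = 0 ∧ (τ p).re - (τ f).re ≤ (τ p').re := by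
  obtain ⟨r, hr, h1, h2, h3⟩ := h.join (1 - p) f hp.one_sub hf
  refine ⟨1 - r, hr.one_sub, ?_, by rw [sub_mul, one_mul, h2, sub_self], ?_⟩
  · have e : (1 - r) * p = 1 - r := by
      have : (1 - r) * (1 - p) = 0 := by rw [sub_mul, one_mul, h1, sub_self]
      rw [mul_sub, mul_one, sub_eq_zero] at this
      exact this.symm
    exact flip hr.one_sub.isSelfAdjoint.star_eq hp.isSelfAdjoint.star_eq
      hr.one_sub.isSelfAdjoint.star_eq e
  · rw [map_sub, h.t_one, Complex.sub_re, Complex.one_re] at h3 ⊢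
    linarith

/-- a left support of `y s` with controlled trace -/
theorem supp4 (h : Hyp U τ) (y : M) {s : M} (hs : IsStarProjection s) :
    ∃ r, IsStarProjection r ∧ r * (y * s) = y * s ∧ (τ r).re ≤ 4 * (τ s).re := by
  obtain ⟨u, c, hy, -⟩ := CStarAlgebra.exists_sum_four_unitary y
  have hu : ∀ i, star (u i : M) * star (star (u i : M)) = 1 := fun i => by
    rw [star_star]; exact (u i).2.1
  obtain ⟨r, hr, h1, h2⟩ := h.joinFin univ
    (fun i => star (star (u i : M)) * s * star (u i : M)) (fun i _ => conj_proj (hu i) hs)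
  refine ⟨r, hr, ?_, ?_⟩
  · have key : ∀ i, r * ((u i : M) * s) = (u i : M) * s := fun i => by
      have e : (u i : M) * s = star (star (u i : M)) * s * star (u i : M) * (u i : M) := by
        rw [star_star, mul_assoc, (u i).2.1, mul_one]
      rw [e, ← mul_assoc, h1 i (mem_univ _)]
    rw [hy, sum_mul, mul_sum]
    refine sum_congr rfl fun i _ => ?_
    rw [smul_mul_assoc, mul_smul_comm, key]
  · simp only [h.re_conj (hu _), sum_const, card_univ, Fintype.card_fin, nsmul_eq_mul] at h2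
    exact_mod_cast h2

/-- subprojections of prescribed size -/
theorem sub_size (h : Hyp U τ) (hD : Tiny τ) {q : M} (hq : IsStarProjection q) {θ : ℝ}
    (hθ : 0 < θ) (hθq : θ ≤ (τ q).re) :
    ∃ s, IsStarProjection s ∧ q * s = s ∧ θ / 2 ≤ (τ s).re ∧ (τ s).re ≤ θ := by
  obtain ⟨s0, hs0, h1, h2⟩ := hD (θ / 4) (by positivity)
  have key : ∀ k : ℕ, k * (τ s0).re < (τ q).re →
      ∃ s, IsStarProjection s ∧ q * s = s ∧ (τ s).re = k * (τ s0).re := by
    intro k
    induction k with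
    | zero => intro _; exact ⟨0, IsStarProjection.zero _, by simp, by simp⟩
    | succ k ih =>
      intro hk
      push_cast at hk
      obtain ⟨s, hs, e1, e2⟩ := ih (by linarith)
      have hqs : IsStarProjection (q - s) := hs.sub_of_mul_eq_right hq e1
      obtain ⟨z, hz, v, hv, hv'⟩ := h.tc hs0 hqs (by
        rw [map_sub, Complex.sub_re]; linarith)
      have hp := h.proj_mul hz hs0
      have hvv := pi_final hp hv
      have sq : s * q = s := flip hq.isSelfAdjoint.star_eq hs.isSelfAdjoint.star_eq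
        hs.isSelfAdjoint.star_eq e1
      have sv : s * v = 0 := by
        rw [← hv', ← mul_assoc, mul_sub, sq, hs.isIdempotentElem.eq, sub_self, zero_mul]
      have qv : q * v = v := by
        rw [sub_mul, sv, sub_zero] at hv'; exact hv'
      refine ⟨s + v * star v, hs.add hvv (by rw [← mul_assoc, sv, zero_mul]), ?_, ?_⟩
      · rw [mul_add, e1, ← mul_assoc, qv]
      · rw [map_add, Complex.add_re, e2, h.tr, hv, h.re_mul hz hs0]
        push_cast; ring
  have c1 : θ / 2 / (τ s0).re ≤ (⌈θ / 2 / (τ s0).re⌉₊ : ℝ) := Nat.le_ceil _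
  have c2 : (⌈θ / 2 / (τ s0).re⌉₊ : ℝ) < θ / 2 / (τ s0).re + 1 :=
    Nat.ceil_lt_add_one (by positivity)
  rw [div_le_iff₀ h1] at c1
  have c3 : (⌈θ / 2 / (τ s0).re⌉₊ : ℝ) * (τ s0).re < θ / 2 + (τ s0).re := by
    have := mul_lt_mul_of_pos_right c2 h1
    rwa [add_mul, div_mul_cancel₀ _ h1.ne', one_mul] at this
  obtain ⟨s, hs, e1, e2⟩ := key ⌈θ / 2 / (τ s0).re⌉₊ (by linarith)
  exact ⟨s, hs, e1, by linarith, by linarith⟩

variable [PartialOrder M] [StarOrderedRing M]

theorem t_mul_nonneg (h : Hyp U τ) {b c : M} (hb : 0 ≤ b) (hc : 0 ≤ c) : 0 ≤ (τ (b * c)).re := by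
  obtain ⟨b', rfl⟩ := CStarAlgebra.nonneg_iff_eq_star_mul_self.1 hb
  obtain ⟨c', rfl⟩ := CStarAlgebra.nonneg_iff_eq_star_mul_self.1 hc
  exact tr_nonneg τ h.tr h.pos _ _

theorem t_nonneg (h : Hyp U τ) {b : M} (hb : 0 ≤ b) : 0 ≤ (τ b).re := by
  have := t_mul_nonneg h hb (zero_le_one' M)
  rwa [mul_one] at this

theorem t_mono (h : Hyp U τ) {b c : M} (hb : b ≤ c) : (τ b).re ≤ (τ c).re := by
  have := t_nonneg h (sub_nonneg.2 hb)
  rw [map_sub, Complex.sub_re] at this
  linarith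

/-- compressing by a contraction lowers the trace -/
theorem t_conj_le (h : Hyp U τ) {b c : M} (hb : 0 ≤ b) (hc : ‖c‖ ≤ 1) :
    (τ (c * b * star c)).re ≤ (τ b).re := by
  have h1 : star c * c ≤ 1 := by
    rw [← CStarAlgebra.norm_le_one_iff_of_nonneg _ (star_mul_self_nonneg c),
      CStarRing.norm_star_mul_self]
    exact mul_le_one₀ hc (norm_nonneg _) hc
  have h2 := t_mul_nonneg h (sub_nonneg.2 h1) hb
  rw [sub_mul, one_mul, map_sub, Complex.sub_re] at h2
  rw [h.tr, ← mul_assoc]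
  linarith

/-- spectral cut of a positive element -/
theorem cutA (h : Hyp U τ) (rk : RK M) {A : M} (h0 : 0 ≤ A) {t : ℝ} (t0 : 0 ≤ t) :
    ∃ f, IsStarProjection f ∧ ‖(1 - f) * A‖ ≤ t ∧ t * (τ f).re ≤ (τ A).re := by
  set k : M := A - algebraMap ℝ M t with hk
  have ksa : IsSelfAdjoint k :=
    h0.isSelfAdjoint.sub (IsSelfAdjoint.algebraMap M (IsSelfAdjoint.all t))
  obtain ⟨f, hf, f1, f2⟩ := rk (k⁺)
  have kp : 0 ≤ k⁺ := CFC.posPart_nonneg k
  have kn : 0 ≤ k⁻ := CFC.negPart_nonneg k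
  have kd : k⁺ - k⁻ = k := CFC.posPart_sub_negPart k ksa
  have n1 : k⁻ * f = 0 := f2 _ (CFC.negPart_mul_posPart k)
  have n2 : f * k⁻ = 0 := flip kn.isSelfAdjoint.star_eq hf.isSelfAdjoint.star_eq (star_zero _) n1
  have hh' : A = algebraMap ℝ M t + (k⁺ - k⁻) := by rw [kd, hk]; abel
  have hf' : IsStarProjection (1 - f) := hf.one_sub
  have hfm : f * A = t • f + k⁺ := by
    rw [hh', mul_add, mul_sub, f1, n2, sub_zero, Algebra.algebraMap_eq_smul_one, mul_smul_comm,
      mul_one]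
  have e1 : (1 - f) * A = t • (1 - f) - k⁻ := by
    rw [sub_mul, one_mul, hfm]
    nth_rewrite 1 [hh']
    rw [smul_sub, Algebra.algebraMap_eq_smul_one]; abel
  have e2 : (1 - f) * A * (1 - f) = (1 - f) * A := by
    rw [e1, sub_mul, smul_mul_assoc, hf'.isIdempotentElem.eq, mul_sub, mul_one, n1, sub_zero]
  have p1 : 0 ≤ (1 - f) * A := by
    rw [← e2]; exact hf'.isSelfAdjoint.conjugate_nonneg h0
  refine ⟨f, hf, ?_, ?_⟩
  · have l1 : (1 - f) * A ≤ t • (1 - f) := by rw [e1]; exact sub_le_self _ kn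
    refine (CStarAlgebra.norm_le_norm_of_nonneg_of_le p1 l1).trans ?_
    rw [norm_smul, Real.norm_of_nonneg t0]
    exact mul_le_of_le_one_right t0 hf'.norm_le
  · have e3 : A = t • f + k⁺ + (1 - f) * A := by rw [← hfm, sub_mul, one_mul]; abel
    have := t_nonneg h kp
    have := t_nonneg h p1
    rw [e3, map_add, map_add, Complex.add_re, Complex.add_re, re_smul]
    linarith

theorem sa_le {x q : M} (hx : star x = x) (hq : IsStarProjection q) (hqx : q * x * q = x) {ε : ℝ}
    (hn : ‖x‖ ≤ ε) : x ≤ ε • q := by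
  have h1 : x ≤ algebraMap ℝ M ‖x‖ := IsSelfAdjoint.le_algebraMap_norm_self hx
  have h2 := hq.isSelfAdjoint.conjugate_le_conjugate h1
  rw [hqx, Algebra.algebraMap_eq_smul_one, mul_smul_comm, smul_mul_assoc, mul_one,
    hq.isIdempotentElem.eq] at h2
  exact h2.trans (smul_le_smul_of_nonneg_right hn hq.nonneg)

/-- local quantisation in norm, upper bound -/
theorem lq (h : Hyp U τ) (rk : RK M) (h3 : LQ2 τ) (I : Type) [Fintype I] {Λ γ π0 : ℝ}
    (hΛ : 0 < Λ) (hγ : 0 < γ) (hπ : 0 < π0) : ∃ θ0 : ℝ, 0 < θ0 ∧ ∀ p, IsStarProjection p →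
      π0 ≤ (τ p).re → ∀ b : I → M, (∀ i, 0 ≤ b i) → (∀ i, ‖p * b i * p‖ ≤ Λ) →
      ∃ q, IsStarProjection q ∧ p * q = q ∧ θ0 ≤ (τ q).re ∧
        ∀ i, q * b i * q ≤ ((τ (b i)).re / π0 + γ) • q := by
  set ε : ℝ := γ / (2 * Λ) with hε
  have ε0 : 0 < ε := by positivity
  set m : ℝ := (Fintype.card I : ℝ) with hm
  have m0 : 0 ≤ m := Nat.cast_nonneg _
  obtain ⟨c0, hc0, H⟩ := h3 I (ε / (m + 1)) π0 (by positivity) hπ
  refine ⟨c0 / 2, by positivity, fun p hp hπp b hb hbn => ?_⟩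
  have pp : p * p = p := hp.isIdempotentElem.eq
  have ps : star p = p := hp.isSelfAdjoint.star_eq
  have tp : 0 < (τ p).re := by linarith
  have tpim : τ p = ((τ p).re : ℂ) := by
    have := h.st p
    rw [ps] at this
    exact (Complex.conj_eq_iff_re.1 this.symm).symm
  set lam : I → ℝ := fun i => (τ (p * b i * p)).re / (τ p).re with hlam
  have pb0 : ∀ i, 0 ≤ p * b i * p := fun i => hp.isSelfAdjoint.conjugate_nonneg (hb i)
  have pbs : ∀ i, star (p * b i * p) = p * b i * p := fun i => (pb0 i).isSelfAdjoint.star_eq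
  have lam0 : ∀ i, 0 ≤ lam i := fun i => div_nonneg (t_nonneg h (pb0 i)) tp.le
  have lam1 : ∀ i, lam i ≤ Λ := fun i => by
    have e : p * (p * b i * p) * p = p * b i * p := by
      simp only [← mul_assoc, pp]; rw [mul_assoc, pp]
    have := t_mono h (sa_le (pbs i) hp e (hbn i))
    rw [re_smul] at this
    exact (div_le_iff₀ tp).2 this
  have lam2 : ∀ i, lam i ≤ (τ (b i)).re / π0 := fun i => by
    have := t_conj_le h (hb i) hp.norm_le
    rw [ps] at this
    exact div_le_div₀ (t_nonneg h (hb i)) this hπ hπp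
  set Y : I → M := fun i => (2 * Λ)⁻¹ • (p * b i * p - lam i • p) with hY
  obtain ⟨q1, hq1, pq1, cq1, hZ⟩ := H p hp hπp Y (fun i => by
      rw [hY]
      simp only
      rw [norm_smul, norm_inv, Real.norm_of_nonneg (by positivity), inv_mul_le_iff₀ (by positivity)]
      refine (norm_sub_le _ _).trans ?_
      rw [norm_smul, Real.norm_of_nonneg (lam0 i)]
      have := mul_le_of_le_one_right (lam0 i) hp.norm_le
      linarith [hbn i, lam1 i]) (fun i => by
      have e : p * Y i = Y i := by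
        rw [hY]
        simp only [mul_smul_comm, mul_sub, ← mul_assoc, pp]
      have tb : τ (p * b i * p) = ((τ (p * b i * p)).re : ℂ) := by
        have := h.st (p * b i * p)
        rw [pbs] at this
        exact (Complex.conj_eq_iff_re.1 this.symm).symm
      rw [e, hY]
      simp only
      rw [← Complex.coe_smul, map_smul, map_sub, ← Complex.coe_smul, map_smul, tb, tpim, smul_eq_mul,
        smul_eq_mul, hlam]
      simp only
      rw [← Complex.ofReal_mul, div_mul_cancel₀ _ tp.ne', sub_self, mul_zero])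
  have hf : ∀ i, ∃ f, IsStarProjection f ∧ ‖(1 - f) * (q1 * Y i * q1)‖ ≤ ε ∧
      (τ f).re ≤ (τ q1).re / (m + 1) ^ 2 := fun i => by
    obtain ⟨f, f1, f2, f3⟩ := exists_sp rk τ h.tr h.pos (q1 * Y i * q1) ε0.le
    refine ⟨f, f1, f2, ?_⟩
    have f4 := f3 1
    rw [pow_one, h.tr, mul_one] at f4
    have f5 := f4.trans (hZ i)
    have e5 : (τ q1).re * (ε / (m + 1)) ^ 2 = ε ^ 2 * ((τ q1).re / (m + 1) ^ 2) := by
      rw [div_pow]; ring
    rw [e5] at f5
    exact le_of_mul_le_mul_left f5 (by positivity)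
  choose f f1 f2 f3 using hf
  obtain ⟨F, hF, F1, F2⟩ := h.joinFin univ f (fun i _ => f1 i)
  have q10 := h.proj_nonneg hq1
  have F3 : (τ F).re ≤ (τ q1).re / 2 := by
    refine F2.trans ((sum_le_sum fun i _ => f3 i).trans ?_)
    rw [sum_const, card_univ, nsmul_eq_mul, ← hm, ← mul_div_assoc, div_le_div_iff₀ (by positivity)
      (by norm_num)]
    nlinarith [sq_nonneg m]
  obtain ⟨q, hq, q1q, qF, tq⟩ := meet h hq1 hF
  have qs : star q = q := hq.isSelfAdjoint.star_eq
  have qq : q * q = q := hq.isIdempotentElem.eq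
  have qq1 : q * q1 = q := flip hq1.isSelfAdjoint.star_eq qs qs q1q
  have pq : p * q = q := by rw [← q1q, ← mul_assoc, pq1]
  have qp : q * p = q := flip ps qs qs pq
  refine ⟨q, hq, pq, by linarith, fun i => ?_⟩
  have qf : q * f i = 0 := by rw [← F1 i (mem_univ _), ← mul_assoc, qF, zero_mul]
  have e1 : q * Y i * q = q * ((1 - f i) * (q1 * Y i * q1)) * q := by
    rw [← mul_assoc q, mul_sub, mul_one, qf, sub_zero]
    calc q * Y i * q = (q * q1) * Y i * (q1 * q) := by rw [qq1, q1q]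
      _ = _ := by simp only [mul_assoc]
  have n1 : ‖q * Y i * q‖ ≤ ε := by
    rw [e1]
    calc _ ≤ ‖q‖ * ‖(1 - f i) * (q1 * Y i * q1)‖ * ‖q‖ :=
          (norm_mul_le _ _).trans (mul_le_mul_of_nonneg_right (norm_mul_le _ _) (norm_nonneg _))
      _ ≤ 1 * ε * 1 := by gcongr; exacts [hq.norm_le, f2 i, hq.norm_le]
      _ = ε := by ring
  have Ys : star (Y i) = Y i := by
    rw [hY]; simp only [star_smul, star_sub, pbs, ps, star_trivial]
  have l1 : q * Y i * q ≤ ε • q := sa_le (by rw [star_mul, star_mul, qs, Ys, mul_assoc]) hq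
    (by simp only [← mul_assoc, qq]; rw [mul_assoc, qq]) n1
  have e2 : q * b i * q = (2 * Λ) • (q * Y i * q) + lam i • q := by
    rw [hY]
    simp only [mul_smul_comm, smul_mul_assoc, smul_smul, mul_sub, sub_mul]
    rw [mul_inv_cancel₀ (by positivity), one_smul, qp, qq, sub_add_cancel]
    calc q * b i * q = (q * p) * b i * (p * q) := by rw [qp, pq]
      _ = _ := by simp only [mul_assoc]
  rw [e2, add_smul, add_comm]
  refine add_le_add (smul_le_smul_of_nonneg_right (lam2 i) hq.nonneg) ?_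
  refine (smul_le_smul_of_nonneg_left l1 (by positivity)).trans_eq ?_
  rw [smul_smul, hε, mul_div_cancel₀ _ (by positivity)]

end Pool.Agent.Lib.MP_08bba9_an.B
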